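import Pool.Agent.H7.LP.Targets

/-!
# Row DIC: common lower indices
-/

set_option autoImplicit false

open Set Filter Topology

namespace Pool.Agent.H74.LPG

open Pool.Agent.H7.LP

theorem pf_DIC (_h1 : T_LAB) (h2 : T_PRS) (h3 : T_ADM) : T_DIC := by
  intro G X _ _ _ _ L M _ Y S x e w hc hw i j m hi hj
  obtain ⟨gi, hgi⟩ := (h2 G X L M Y S x e w hc hw i.1).1 hi
  obtain ⟨gj, hgj⟩ := (h2 G X L M Y S x e w hc hw j.1).1 hj
  have ni : S.Node x i.1 (e i) := hc.node i.1 gi hgi i.2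
  have nj : S.Node x j.1 (e j) := hc.node j.1 gj hgj j.2
  obtain ⟨q, g, hq, hm, hgH, ai, aj⟩ := S.dir x i.1 j.1 (e i) (e j) m ni nj
  obtain ⟨j0, -, hu⟩ := hc.all q g hq 0
  have nl : S.Node x q (e (q, j0)) := hc.node q g hq j0
  have huH : g * (e (q, j0))⁻¹ ∈ L.H (S.k q) := ((S.le q) hu).1
  have hel : e (q, j0) ∈ L.H (S.k q) := by
    have h := (L.H (S.k q)).mul_mem ((L.H (S.k q)).inv_mem huH) hgH
    have h' : (g * (e (q, j0))⁻¹)⁻¹ * g = e (q, j0) := by group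
    rwa [h'] at h
  have key : ∀ (t : ℕ × ℕ), S.Node x t.1 (e t) →
      AdmA L (S.k q) (S.K q) (S.k t.1) (S.K t.1) (g * (e t)⁻¹) →
      ∃ n, w ((q, j0), t, n) = true := by
    intro t nt at'
    have h := (h3 G X L M Y S q t.1 (g * (e t)⁻¹) (g * (e (q, j0))⁻¹)⁻¹ 1 at'
      ((S.K q).inv_mem hu) ((S.K t.1).one_mem)).1
    have h' : (g * (e (q, j0))⁻¹)⁻¹ * (g * (e t)⁻¹) * 1 = e (q, j0) * (e t)⁻¹ := by group
    rw [h'] at h
    obtain ⟨n, hn⟩ := S.gam x q t.1 (e (q, j0)) (e t) nl nt h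
    exact ⟨n, (hw (q, j0) t n).2 ⟨⟨_, nl⟩, ⟨_, nt⟩, h, hn⟩⟩
  refine ⟨(q, j0), ?_, hm, hel, key i ni ai, key j nj aj⟩
  exact (h2 G X L M Y S x e w hc hw q).2 ⟨_, nl⟩

end Pool.Agent.H74.LPG
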